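import Pool.Agent.H46.SF2.Gq
import Pool.Agent.H85.SA.Def

/-! # [SF2 (R1)-(R4)] THEOREM SF, phase 2: from the function field to the certificate on polynomials

`h : Fld G t y`: `L` is the function field of `G = 0`. `D'` is a denominator, `D'(t,y) z = A(t,y)`.
`eqv_of`: an identity in `L` gives `Eqv`. `bd_of`: the equation of `bd_int` (H12/SF2/Bdo) gives `Bd G Z D' A` for all large `Z`. `ig_of`: the equation of `ig_int` gives `Ig G Z D' A`. -/

set_option autoImplicit false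

namespace Pool.Agent.H46.SF2

open Pool.Agent.H98.AL Pool.Agent.H46.SF Pool.Agent.H85.SA Filter

theorem sz_ev (s : Polynomial ℤ) : ∀ᶠ Z : ℕ in atTop, Sz Z s := by
  filter_upwards [eventually_ge_atTop (s.natDegree + ∑ i ∈ Finset.range (s.natDegree + 1), (s.coeff i).natAbs)] with Z hZ
  refine ⟨by omega, ?_⟩
  have h1 : ∑ i ∈ Finset.range (Z + 1), |s.coeff i| = ∑ i ∈ Finset.range (s.natDegree + 1), |s.coeff i| := by
    symm
    refine Finset.sum_subset (Finset.range_mono (by omega)) fun i _ hi => ?_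
    rw [Finset.mem_range, not_lt] at hi
    rw [Polynomial.coeff_eq_zero_of_natDegree_lt (by omega), abs_zero]
  rw [h1]
  have h2 : ∑ i ∈ Finset.range (s.natDegree + 1), |s.coeff i| =
      ((∑ i ∈ Finset.range (s.natDegree + 1), (s.coeff i).natAbs : ℕ) : ℤ) := by
    push_cast
    exact Finset.sum_congr rfl fun i _ => rfl
  rw [h2]
  exact_mod_cast (by omega)

theorem em_eq (s : Polynomial ℤ) : H85.SA.em s = px s := rfl

theorem vl_em {S : Type*} [CommRing S] (q : Polynomial ℤ) (x y : S) : vl (H85.SA.em q) x y = Polynomial.aeval x q :=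
  vl_px q x y

theorem em_mul (p q : Polynomial ℤ) : H85.SA.em (p * q) = H85.SA.em p * H85.SA.em q := map_mul _ _ _

theorem em_C (a : ℤ) : H85.SA.em (Polynomial.C a) = MvPolynomial.C a := by
  unfold H85.SA.em
  rw [Polynomial.aeval_C]
  rfl

theorem em_ne {D : Polynomial ℤ} (hD : D ≠ 0) {L : Type} [Field L] [CharZero L] {t y : L} (ht : Transcendental ℚ t) :
    vl (H85.SA.em D) t y ≠ 0 := by
  rw [vl_em]
  intro h
  have h1 : Polynomial.aeval t (D.map (Int.castRingHom ℚ)) = 0 := by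
    rw [← algebraMap_int_eq, Polynomial.aeval_map_algebraMap, h]
  have h2 := transcendental_iff.1 ht _ h1
  exact hD ((Polynomial.map_eq_zero_iff Int.cast_injective).1 h2)

variable {G : P2} {L : Type} [Field L] [CharZero L] {t y : L}

theorem Fld.tr (h : Fld G t y) : Transcendental ℚ t := by
  obtain ⟨d, f, l, hm, -, -⟩ := h.mod
  exact hm.tr

/-- [R2] -/
theorem eqv_of (h : Fld G t y) {A B : P2} (hAB : vl A t y = vl B t y) : Eqv G A B := by
  have h1 : vl (A - B) t y = 0 := by rw [vl_sub, hAB, sub_self]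
  obtain ⟨m, Q, hm, hQ⟩ := id_ex h h1
  exact ⟨m, Q, hm, hQ⟩

omit [CharZero L] in
private theorem vl_fsum {ι : Type} (s : Finset ι) (f : ι → P2) : vl (∑ i ∈ s, f i) t y = ∑ i ∈ s, vl (f i) t y := by
  classical
  induction s using Finset.induction_on with
  | empty => rw [Finset.sum_empty, Finset.sum_empty, vl_zero]
  | insert a s ha ih => rw [Finset.sum_insert ha, Finset.sum_insert ha, vl_add, ih]

/-- the homogeneous equation -/
private theorem hom_eq (h : Fld G t y) {z : L} {D' A : P2} (hA : vl D' t y * z = vl A t y) {N : ℕ}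
    {s : ℕ → Polynomial ℤ} (hs : ∑ j ∈ Finset.range (N + 1), Polynomial.aeval t (s j) * z ^ (N - j) = 0) :
    ∃ (m : ℤ) (Q : P2), m ≠ 0 ∧ ∑ j ∈ Finset.range (N + 1), H85.SA.em (Polynomial.C m * s j) * A ^ (N - j) * D' ^ j = G * Q := by
  have h1 : vl (∑ j ∈ Finset.range (N + 1), H85.SA.em (s j) * A ^ (N - j) * D' ^ j) t y = 0 := by
    rw [vl_fsum]
    have h2 : ∀ j ∈ Finset.range (N + 1), vl (H85.SA.em (s j) * A ^ (N - j) * D' ^ j) t y =
        vl D' t y ^ N * (Polynomial.aeval t (s j) * z ^ (N - j)) := by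
      intro j hj
      have hj' : j ≤ N := by
        have := Finset.mem_range.1 hj
        omega
      rw [vl_mul, vl_mul, vl_pow, vl_pow, vl_em, ← hA]
      obtain ⟨i, rfl⟩ := Nat.exists_eq_add_of_le hj'
      rw [Nat.add_sub_cancel_left, pow_add, mul_pow]
      ring
    rw [Finset.sum_congr rfl h2, ← Finset.mul_sum, hs, mul_zero]
  obtain ⟨m, Q, hm, hQ⟩ := id_ex h h1
  refine ⟨m, Q, hm, ?_⟩
  rw [← hQ, Finset.mul_sum]
  refine Finset.sum_congr rfl fun j _ => ?_
  rw [em_mul, em_C]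
  ring

private theorem pos_N (h : Fld G t y) {z : L} {N : ℕ} {s : ℕ → Polynomial ℤ} (h0 : s 0 ≠ 0)
    (hs : ∑ j ∈ Finset.range (N + 1), Polynomial.aeval t (s j) * z ^ (N - j) = 0) : 1 ≤ N := by
  by_contra hN
  have hN0 : N = 0 := by omega
  subst hN0
  rw [Finset.sum_range_one, pow_zero, mul_one] at hs
  have h1 := em_ne (y := y) h0 h.tr
  rw [vl_em] at h1
  exact h1 hs

/-- [R3] -/
theorem bd_of (h : Fld G t y) {z : L} {D' A : P2} (hA : vl D' t y * z = vl A t y)
    (hz : ∃ (N : ℕ) (s : ℕ → Polynomial ℤ), s 0 ≠ 0 ∧ (∀ j, (s j).natDegree ≤ (s 0).natDegree) ∧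
      (∀ j, N < j → s j = 0) ∧ ∑ j ∈ Finset.range (N + 1), Polynomial.aeval t (s j) * z ^ (N - j) = 0) :
    ∀ᶠ Z : ℕ in atTop, Bd G Z D' A := by
  obtain ⟨N, s, h0, hd, -, hs⟩ := hz
  obtain ⟨m, Q, hm, hQ⟩ := hom_eq h hA hs
  have hN := pos_N h h0 hs
  have hdm : ∀ j, (Polynomial.C m * s j).natDegree = (s j).natDegree := fun j => Polynomial.natDegree_C_mul hm
  have hall : ∀ᶠ Z : ℕ in atTop, ∀ j ∈ Finset.range (N + 1), Sz Z (Polynomial.C m * s j) :=
    (Filter.eventually_all_finset _).2 fun j _ => sz_ev _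
  filter_upwards [eventually_ge_atTop N, hall] with Z hZ hSz
  refine ⟨N, fun j => Polynomial.C m * s j, Q, hN, hZ, mul_ne_zero (Polynomial.C_ne_zero.2 hm) h0, fun j hj => ⟨?_, ?_⟩, hQ⟩
  · show (Polynomial.C m * s j).natDegree ≤ (Polynomial.C m * s 0).natDegree
    rw [hdm, hdm]
    exact hd j
  · exact hSz j (Finset.mem_range.2 (by omega))

/-- [R4] -/
theorem ig_of (h : Fld G t y) {z : L} {D' A : P2} (hA : vl D' t y * z = vl A t y)
    (hz : ∃ (N : ℕ) (s : ℕ → Polynomial ℤ) (e : ℤ), e ≠ 0 ∧ s 0 = Polynomial.C e ∧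
      (∀ j, N < j → s j = 0) ∧ ∑ j ∈ Finset.range (N + 1), Polynomial.aeval t (s j) * z ^ (N - j) = 0) :
    ∀ᶠ Z : ℕ in atTop, Ig G Z D' A := by
  obtain ⟨N, s, e, he, h0, -, hs⟩ := hz
  obtain ⟨m, Q, hm, hQ⟩ := hom_eq h hA hs
  have hN := pos_N h (by rw [h0]; exact Polynomial.C_ne_zero.2 he) hs
  filter_upwards [eventually_ge_atTop (m * e).natAbs] with Z hZ
  refine ⟨N, (m * e).natAbs, fun j => Polynomial.C ((m * e).sign * m) * s j, MvPolynomial.C (m * e).sign * Q, hN,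
    ?_, hZ, ?_, ?_⟩
  · have h1 : m * e ≠ 0 := mul_ne_zero hm he
    omega
  · show Polynomial.C ((m * e).sign * m) * s 0 = _
    rw [h0, ← Polynomial.C_mul, mul_assoc, Int.sign_mul_self_eq_abs, Int.natCast_natAbs]
  · have h1 : ∀ j ∈ Finset.range (N + 1), H85.SA.em (Polynomial.C ((m * e).sign * m) * s j) * A ^ (N - j) * D' ^ j =
        MvPolynomial.C (m * e).sign * (H85.SA.em (Polynomial.C m * s j) * A ^ (N - j) * D' ^ j) := by
      intro j _
      rw [em_mul, em_mul, em_C, em_C, MvPolynomial.C_mul]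
      ring
    rw [Finset.sum_congr rfl h1, ← Finset.mul_sum, hQ]
    ring

end Pool.Agent.H46.SF2
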