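import Pool.Agent.H46.SF2.Tau

/-! # [SF2 (R1), (R2)] THEOREM SF, phase 2: functions are quotients of polynomials, identities are multiples of `G`

`(R1)` `den_ex`: finitely many elements `z_i` of `L = ℚ(t,y)` have a common denominator: `D(t) z_i = A_i(t,y)`, `D, A_i` over `ℤ`, `D ≠ 0`.
`(R2)` `id_ex`: `P(t,y) = 0` in `L`: `μ P = G Q` in `ℤ[x,y]`, `μ ≠ 0` an integer, `G = shf c F`. -/

set_option autoImplicit false

namespace Pool.Agent.H46.SF2

open Pool.Agent.H98.AL Pool.Agent.H46.SF Pool.Agent.H12.SF IntermediateField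

section

variable {k L : Type} [Field k] [Field L] [Algebra k L]

/-- the map `F ↦ F(t, Y)` -/
private theorem evp_map (t y : L) (P : Polynomial (Polynomial k)) : evp t y P =
    (P.map (Polynomial.aeval t : Polynomial k →ₐ[k] L).toRingHom).eval y := by
  unfold evp
  rw [Polynomial.eval_map]
  rfl

theorem mod_dvd {t y : L} {d : ℕ} {f : Polynomial (Polynomial k)} (h : Mod k t y d f) {P : Polynomial (Polynomial k)}
    (hP : evp t y P = 0) : f ∣ P := by
  rw [← Polynomial.modByMonic_eq_zero_iff_dvd h.mon]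
  by_contra hR
  obtain ⟨R, hRd⟩ : ∃ R, R = P %ₘ f := ⟨_, rfl⟩
  rw [← hRd] at hR
  have h1 : evp t y R = 0 := by
    have h2 := Polynomial.modByMonic_add_div P f
    rw [← hRd] at h2
    rw [← h2, map_add, map_mul, h.root, zero_mul, add_zero] at hP
    exact hP
  have hdeg : R.degree < f.degree := by
    rw [hRd]
    exact Polynomial.degree_modByMonic_lt P h.mon
  have ht0 : Function.Injective (Polynomial.aeval t : Polynomial k →ₐ[k] L).toRingHom :=
    transcendental_iff_injective.1 h.tr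
  -- the polynomial over k(t)
  obtain ⟨φ, hφ⟩ : ∃ φ : Polynomial k →+* k⟮t⟯, ∀ p, algebraMap k⟮t⟯ L (φ p) = Polynomial.aeval t p :=
    ⟨(Polynomial.aeval (IntermediateField.AdjoinSimple.gen k t) : Polynomial k →ₐ[k] k⟮t⟯).toRingHom, fun p => by
      have h1 := Polynomial.aeval_algHom_apply (k⟮t⟯).val (IntermediateField.AdjoinSimple.gen k t) p
      exact h1.symm⟩
  have hφi : Function.Injective φ := by
    intro a b hab
    apply ht0
    show Polynomial.aeval t a = Polynomial.aeval t b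
    rw [← hφ, ← hφ, hab]
  have h3 : Polynomial.aeval y (R.map φ) = 0 := by
    rw [Polynomial.aeval_def, Polynomial.eval₂_map]
    have h4 : (algebraMap k⟮t⟯ L).comp φ = (Polynomial.aeval t : Polynomial k →ₐ[k] L).toRingHom :=
      RingHom.ext hφ
    rw [h4]
    exact h1
  obtain ⟨hint, hmin⟩ := mod_min h
  have h5 : R.map φ ≠ 0 := (Polynomial.map_ne_zero_iff hφi).2 hR
  have h6 := Polynomial.degree_le_of_dvd (minpoly.dvd _ _ h3) h5
  rw [Polynomial.degree_map_eq_of_injective hφi] at h6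
  have h7 : (minpoly k⟮t⟯ y).degree = f.degree := by
    have h8 := congrArg Polynomial.degree hmin
    rw [Polynomial.degree_map, Polynomial.degree_map_eq_of_injective ht0] at h8
    exact h8
  rw [h7] at h6
  exact absurd hdeg (not_lt.2 h6)

theorem mod_den {t y : L} {d : ℕ} {f : Polynomial (Polynomial k)} (h : Mod k t y d f) (z : L) :
    ∃ (D : Polynomial k) (A : Polynomial (Polynomial k)), D ≠ 0 ∧ Polynomial.aeval t D * z = evp t y A := by
  obtain ⟨hint, hmin⟩ := mod_min h
  have htop : IntermediateField.adjoin k⟮t⟯ {y} = ⊤ := by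
    have h1 := IntermediateField.adjoin_simple_adjoin_simple k t y
    rw [h.gen] at h1
    rw [eq_top_iff]
    intro z _
    have h2 : z ∈ (k⟮t⟯⟮y⟯).restrictScalars k := by
      rw [h1]
      trivial
    exact h2
  have h1 : z ∈ (IntermediateField.adjoin k⟮t⟯ {y}) := by rw [htop]; trivial
  have h2 : z ∈ Algebra.adjoin k⟮t⟯ {y} := by
    have h3 := IntermediateField.adjoin_simple_toSubalgebra_of_isAlgebraic (F := k⟮t⟯) hint.isAlgebraic
    rw [← h3]
    exact h1
  rw [Algebra.adjoin_singleton_eq_range_aeval] at h2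
  obtain ⟨p, hp⟩ := h2
  -- every element of k(t) is a quotient
  have h3 : ∀ e : k⟮t⟯, ∃ a b : Polynomial k, b ≠ 0 ∧ Polynomial.aeval t b * (algebraMap k⟮t⟯ L e) =
      Polynomial.aeval t a := by
    intro e
    obtain ⟨a, b, hab⟩ := (IntermediateField.mem_adjoin_simple_iff k e.1).1 e.2
    by_cases hb : b = 0
    · refine ⟨0, 1, one_ne_zero, ?_⟩
      have h4 : algebraMap k⟮t⟯ L e = 0 := by
        rw [hb, map_zero, div_zero] at hab
        exact hab
      rw [h4, mul_zero, map_zero]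
    · refine ⟨a, b, hb, ?_⟩
      have h5 : Polynomial.aeval t b ≠ 0 := fun h0 => hb (transcendental_iff.1 h.tr _ h0)
      have h4 : algebraMap k⟮t⟯ L e = Polynomial.aeval t a / Polynomial.aeval t b := hab
      rw [h4, mul_div_cancel₀ _ h5]
  choose a b hb hab using h3
  refine ⟨∏ i ∈ Finset.range (p.natDegree + 1), b (p.coeff i), ∑ i ∈ Finset.range (p.natDegree + 1),
    Polynomial.C (a (p.coeff i) * ∏ j ∈ (Finset.range (p.natDegree + 1)).erase i, b (p.coeff j)) *
      Polynomial.X ^ i, Finset.prod_ne_zero_iff.2 fun i _ => hb _, ?_⟩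
  have h6 : z = ∑ i ∈ Finset.range (p.natDegree + 1), algebraMap k⟮t⟯ L (p.coeff i) * y ^ i := by
    rw [← hp]
    show Polynomial.aeval y p = _
    rw [Polynomial.aeval_eq_sum_range]
    refine Finset.sum_congr rfl fun i _ => ?_
    rw [Algebra.smul_def]
  rw [h6, Finset.mul_sum, map_sum]
  refine Finset.sum_congr rfl fun i hi => ?_
  rw [map_mul, map_pow, evp_C, evp_X, map_mul, ← hab, ← Finset.mul_prod_erase _ _ hi, map_mul]
  ring

/-- common denominator -/
theorem mod_dens {t y : L} {d : ℕ} {f : Polynomial (Polynomial k)} (h : Mod k t y d f) {ι : Type} [Finite ι]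
    (z : ι → L) : ∃ (D : Polynomial k) (A : ι → Polynomial (Polynomial k)), D ≠ 0 ∧
      ∀ i, Polynomial.aeval t D * z i = evp t y (A i) := by
  classical
  have : Fintype ι := Fintype.ofFinite ι
  choose D A hD hA using fun i => mod_den h (z i)
  refine ⟨∏ i, D i, fun i => Polynomial.C (∏ j ∈ Finset.univ.erase i, D j) * A i,
    Finset.prod_ne_zero_iff.2 fun i _ => hD i, fun i => ?_⟩
  rw [map_mul, evp_C, ← hA, ← Finset.mul_prod_erase _ _ (Finset.mem_univ i), map_mul]
  ring

end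

/-- the function field of `G = shf c F` over `ℚ` -/
structure Fld (G : P2) {L : Type} [Field L] [CharZero L] (t y : L) : Prop where
  mod : ∃ (d : ℕ) (f : Polynomial (Polynomial ℚ)) (l : ℚ), Mod ℚ t y d f ∧ l ≠ 0 ∧
    tau G = Polynomial.C (Polynomial.C l) * f

/-- [R1] -/
theorem den_ex {G : P2} {L : Type} [Field L] [CharZero L] {t y : L} (h : Fld G t y) {ι : Type} [Finite ι]
    (z : ι → L) : ∃ (D : Polynomial ℤ) (A : ι → P2), D ≠ 0 ∧ ∀ i, Polynomial.aeval t D * z i = vl (A i) t y := by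
  classical
  have : Fintype ι := Fintype.ofFinite ι
  obtain ⟨d, f, l, hm, -, -⟩ := h.mod
  obtain ⟨D, A, hD, hA⟩ := mod_dens hm z
  obtain ⟨m, q, hm0, -, hq⟩ := Pool.Agent.H12.SF2.clear (N := 0) (fun _ => D)
  choose n B hn hB using fun i => tau_sur (A i)
  have hq0 := hq 0 le_rfl
  refine ⟨Polynomial.C (∏ i, n i) * q 0, fun i => MvPolynomial.C (m * ∏ j ∈ Finset.univ.erase i, n j) * B i, ?_, fun i => ?_⟩
  · refine mul_ne_zero (Polynomial.C_ne_zero.2 (Finset.prod_ne_zero_iff.2 fun i _ => hn i)) ?_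
    intro h0
    rw [h0, Polynomial.map_zero] at hq0
    rcases mul_eq_zero.1 hq0.symm with h1 | h1
    · exact hm0 (by exact_mod_cast (Polynomial.C_eq_zero.1 h1))
    · exact hD h1
  · have h1 : Polynomial.aeval t (q 0) = (m : L) * Polynomial.aeval t D := by
      have h5 : Polynomial.aeval t (q 0) = Polynomial.aeval t ((q 0).map (Int.castRingHom ℚ)) := by
        rw [← algebraMap_int_eq, Polynomial.aeval_map_algebraMap]
      rw [h5, hq0, map_mul, Polynomial.aeval_C, map_intCast]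
    have h2 : vl (B i) t y = (n i : L) * evp t y (A i) := by
      rw [← evp_tau, hB, map_mul, evp_C, Polynomial.aeval_C, map_intCast]
    rw [vl_mul, vl_C, h2, ← hA, map_mul, Polynomial.aeval_C, h1, ← Finset.mul_prod_erase _ _ (Finset.mem_univ i)]
    simp only [algebraMap_int_eq, eq_intCast]
    push_cast
    ring

/-- [R2] -/
theorem id_ex {G : P2} {L : Type} [Field L] [CharZero L] {t y : L} (h : Fld G t y) {P : P2} (hP : vl P t y = 0) :
    ∃ (m : ℤ) (Q : P2), m ≠ 0 ∧ MvPolynomial.C m * P = G * Q := by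
  obtain ⟨d, f, l, hm, hl, hG⟩ := h.mod
  rw [← evp_tau] at hP
  obtain ⟨Q0, hQ0⟩ := mod_dvd hm hP
  obtain ⟨m, Q, hm0, hQ⟩ := tau_sur (Polynomial.C (Polynomial.C l⁻¹) * Q0)
  refine ⟨m, Q, hm0, tau_inj ?_⟩
  rw [tau_mul, tau_mul, tau_C, hQ, hG, hQ0]
  have h1 : (Polynomial.C (Polynomial.C l) : Polynomial (Polynomial ℚ)) * Polynomial.C (Polynomial.C l⁻¹) = 1 := by
    rw [← Polynomial.C_mul, ← Polynomial.C_mul, mul_inv_cancel₀ hl, Polynomial.C_1, Polynomial.C_1]
  have h2 : ((m : ℤ) : Polynomial (Polynomial ℚ)) = Polynomial.C (Polynomial.C (m : ℚ)) := by simp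
  rw [h2]
  linear_combination (-(Polynomial.C (Polynomial.C (m : ℚ)) * f * Q0)) * h1

/-- the function field of a plane curve, `t = x + c y` -/
theorem fld_of {F : P2} (hF : Irreducible (MvPolynomial.map (Int.castRingHom ℚ) F)) {c d : ℕ}
    (hd : (MvPolynomial.map (Int.castRingHom ℚ) F).totalDegree ≤ d)
    (hc : tpf d (MvPolynomial.map (Int.castRingHom ℚ) F) (c : ℚ) ≠ 0) {L : Type} [Field L] [CharZero L] {x y : L}
    (hL : IntermediateField.adjoin ℚ {x, y} = ⊤) (h0 : vl F x y = 0) (ht : Transcendental ℚ (x + c * y)) :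
    Fld (shf c F) (x + c * y) y := by
  have h0' : MvPolynomial.aeval ![x, y] (MvPolynomial.map (Int.castRingHom ℚ) F) = 0 := by
    rw [MvPolynomial.aeval_def, MvPolynomial.eval₂_map, ← h0]
    unfold vl
    congr 1
    exact RingHom.ext_int _ _
  obtain ⟨f, hf, -⟩ := mdl hd hF hc hL h0' ht
  have h1 : evp (x + c * y) y (sbp c (MvPolynomial.map (Int.castRingHom ℚ) F)) = 0 := by
    rw [sbp_evp, h0']
  obtain ⟨u, hu⟩ := mod_dvd hf h1
  have h2 := sbp_irr (c := c) hF
  rw [hu] at h2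
  have hu1 : IsUnit u := by
    rcases h2.isUnit_or_isUnit rfl with h3 | h3
    · exact absurd h3 hf.irr.not_isUnit
    · exact h3
  obtain ⟨v, hv, hv2⟩ := Polynomial.isUnit_iff.1 hu1
  obtain ⟨l, hl, hl2⟩ := Polynomial.isUnit_iff.1 hv
  refine ⟨d, f, l, hf, hl.ne_zero, ?_⟩
  rw [tau_shf, hu, ← hv2, ← hl2]
  ring

end Pool.Agent.H46.SF2
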