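import Pool.Agent.H85.SF.Jel
import Pool.Agent.H12.SF2.Bdo

/-! # [SF2 K2] THEOREM SF, phase 2: the jets over `ℚ` with integral coefficients, and the function `1`

As `jetsL`; the last function is a constant `N ≠ 0`, and the `b k i u` are integral (the functions are multiplied by `N`). -/

set_option autoImplicit false

namespace Pool.Agent.H46.SF2

open Pool.Agent.H85.SF Pool.Agent.H90.SF Pool.Agent.H82.NS Pool.Agent.H12.ON Pool.Agent.H12.OG IntermediateField

theorem clear_fin {ι : Type} [Finite ι] (s : ι → Polynomial ℚ) : ∃ (m : ℤ) (q : ι → Polynomial ℤ), m ≠ 0 ∧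
    ∀ i, (q i).map (Int.castRingHom ℚ) = Polynomial.C (m : ℚ) * s i := by
  classical
  have : Fintype ι := Fintype.ofFinite ι
  have h1 : ∀ p : Polynomial ℚ, ∃ (m : ℤ) (q : Polynomial ℤ), m ≠ 0 ∧
      q.map (Int.castRingHom ℚ) = Polynomial.C (m : ℚ) * p := by
    intro p
    obtain ⟨m, q, hm, -, hq⟩ := Pool.Agent.H12.SF2.clear (N := 0) (fun _ => p)
    exact ⟨m, q 0, hm, hq 0 le_rfl⟩
  choose m q hm hq using fun j => h1 (s j)
  refine ⟨∏ i, m i, fun j => Polynomial.C (∏ i ∈ Finset.univ.erase j, m i) * q j,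
    Finset.prod_ne_zero_iff.2 fun i _ => hm i, fun j => ?_⟩
  rw [Polynomial.map_mul, hq, Polynomial.map_C, ← Finset.mul_prod_erase _ _ (Finset.mem_univ j), eq_intCast]
  push_cast
  rw [Polynomial.C_mul]
  ring

private theorem aev_int {L : Type} [Field L] [CharZero L] (g : L) (b : Polynomial ℤ) :
    Polynomial.aeval g (b.map (Int.castRingHom ℚ)) = Polynomial.aeval g b := by
  rw [← algebraMap_int_eq, Polynomial.aeval_map_algebraMap]

theorem jex {L : Type} [Field L] [CharZero L] {t : L} {O : ValuationSubring L} {q : Polynomial ℤ} {g π : L}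
    {s γ : ℕ} {z : Fin s → L} (h : Pt ℚ t O (q.map (Int.castRingHom ℚ)) g π s γ z)
    (hr : 4 ≤ (q.map (Int.castRingHom ℚ)).natDegree) {W : ℕ}
    (hW : 3 * γ + (q.map (Int.castRingHom ℚ)).natDegree * s ≤
      s * W * ((q.map (Int.castRingHom ℚ)).natDegree - 3)) :
    ∃ (m : ℕ) (N : ℤ) (φ : Fin (m + 1) → L) (g' : L) (b : Fin (m + 1) → Fin s → Fin (4 * W) → Polynomial ℤ),
      N ≠ 0 ∧ (∀ k, IsInt ℚ t (φ k)) ∧ φ (Fin.last m) = (N : L) ∧ g' ∈ O ∧
      Polynomial.aeval g' (q.map (Int.castRingHom ℚ)) / π ^ (4 * W) ∈ O ∧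
      (∀ k, (π ^ (2 * W) * φ k - ∑ i, ∑ u : Fin (4 * W), Polynomial.aeval g' (b k i u) * z i * π ^ (u : ℕ)) /
        π ^ (4 * W) ∈ O) ∧
      SjL (q.map (Int.castRingHom ℚ)) (fun k i u => (b k i u).map (Int.castRingHom ℚ)) (AlgebraicClosure ℚ) := by
  obtain ⟨m, φ, g', b, hb, hS⟩ := jetsL h hr hW
  have hbase : ∀ c : ℚ, algebraMap ℚ L c ∈ O := h.inf.base
  have hg : g ∈ O := Pool.Agent.H12.GN.gO hbase h.irr h.Pg
  have hπ : π ∈ O := O.nonunits_subset h.πm
  have hsp := Pool.Agent.H12.GN.spc hbase h.zO hg hb.gO hb.gm h.zs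
  obtain ⟨B1, r1, hr1, hB1⟩ := Pool.Agent.H12.GN.exd h.π0 h.unf hsp (4 * W)
    (a := π ^ (2 * W) * 1) (O.mul_mem _ _ (O.toSubring.pow_mem hπ _) O.one_mem)
  obtain ⟨φ', hφ'⟩ : ∃ φ' : Fin (m + 1) → L, φ' = Fin.snoc (α := fun _ => L) φ 1 := ⟨_, rfl⟩
  obtain ⟨b', hb'⟩ : ∃ b' : Fin (m + 1) → Fin s → Fin (4 * W) → Polynomial ℚ,
      b' = Fin.snoc (α := fun _ => Fin s → Fin (4 * W) → Polynomial ℚ) b (fun i u => B1 i u) := ⟨_, rfl⟩
  obtain ⟨N, c, hN, hc⟩ := clear_fin (fun v : Fin (m + 1) × Fin s × Fin (4 * W) => b' v.1 v.2.1 v.2.2)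
  have hint : ∀ k, IsInt ℚ t (φ' k) := by
    intro k
    refine Fin.lastCases ?_ (fun k => ?_) k
    · rw [hφ', Fin.snoc_last]
      exact isIntegral_one
    · rw [hφ', Fin.snoc_castSucc]
      exact hb.int k
  have hexp : ∀ k, (π ^ (2 * W) * φ' k - ∑ i, ∑ u : Fin (4 * W), Polynomial.aeval g' (b' k i u) * z i * π ^ (u : ℕ)) /
        π ^ (4 * W) ∈ O := by
    intro k
    refine Fin.lastCases ?_ (fun k => ?_) k
    · rw [hφ', Fin.snoc_last, hb', Fin.snoc_last]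
      have h1 : ∑ i, ∑ u : Fin (4 * W), Polynomial.aeval g' (B1 i u) * z i * π ^ (u : ℕ) =
          ∑ i, ∑ u ∈ Finset.range (4 * W), Polynomial.aeval g' (B1 i u) * z i * π ^ u :=
        Finset.sum_congr rfl fun i _ =>
          (Finset.sum_range fun u => Polynomial.aeval g' (B1 i u) * z i * π ^ u).symm
      rw [h1, hB1, add_sub_cancel_left, mul_div_cancel_right₀ _ (pow_ne_zero _ h.π0)]
      exact hr1
    · rw [hφ', Fin.snoc_castSucc, hb', Fin.snoc_castSucc]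
      exact hb.exp k
  have hNO : (N : L) ∈ O := by
    have h1 := hbase (N : ℚ)
    rwa [map_intCast] at h1
  have hbc : ∀ k i u, (c (k, i, u)).map (Int.castRingHom ℚ) = Polynomial.C (N : ℚ) * b' k i u :=
    fun k i u => hc (k, i, u)
  have hN0 : (N : ℚ) ≠ 0 := by exact_mod_cast hN
  refine ⟨m, N, fun k => N * φ' k, g', fun k i u => c (k, i, u), hN, fun k => ?_, ?_, hb.gO, hb.Pg, fun k => ?_, ?_⟩
  · have h1 : IsInt ℚ t ((N : ℤ) : L) := by
      have h2 : ((N : ℤ) : L) = algebraMap (Algebra.adjoin ℚ {t}) L (N : Algebra.adjoin ℚ {t}) := by simp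
      show IsIntegral (Algebra.adjoin ℚ {t}) ((N : ℤ) : L)
      rw [h2]
      exact isIntegral_algebraMap
    exact IsIntegral.mul h1 (hint k)
  · show (N : L) * φ' (Fin.last m) = N
    rw [hφ', Fin.snoc_last, mul_one]
  · have h1 : (π ^ (2 * W) * (N * φ' k) - ∑ i, ∑ u : Fin (4 * W), Polynomial.aeval g' (c (k, i, u)) * z i * π ^ (u : ℕ)) /
        π ^ (4 * W) = N * ((π ^ (2 * W) * φ' k - ∑ i, ∑ u : Fin (4 * W),
          Polynomial.aeval g' (b' k i u) * z i * π ^ (u : ℕ)) / π ^ (4 * W)) := by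
      have h2 : ∀ i (u : Fin (4 * W)), Polynomial.aeval g' (c (k, i, u)) * z i * π ^ (u : ℕ) =
          N * (Polynomial.aeval g' (b' k i u) * z i * π ^ (u : ℕ)) := by
        intro i u
        rw [← aev_int, hbc, map_mul, Polynomial.aeval_C, map_intCast]
        ring
      simp only [h2]
      simp only [← Finset.mul_sum]
      ring
    rw [h1]
    exact O.mul_mem _ _ hNO (hexp k)
  · intro al hal hroot i₀ h1 h4 J hJ d
    have halg : Algebra.IsAlgebraic ℚ (AlgebraicClosure ℚ) := AlgebraicClosure.isAlgebraic ℚ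
    obtain ⟨w, hw⟩ := hS (AlgebraicClosure ℚ) al hal hroot i₀ h1 h4 J hJ d
    have hNa : algebraMap ℚ (AlgebraicClosure ℚ) (N : ℚ) ≠ 0 := by
      rw [Ne, map_eq_zero]
      exact hN0
    refine ⟨Fin.snoc (α := fun _ => AlgebraicClosure ℚ) (fun l => (algebraMap ℚ (AlgebraicClosure ℚ) (N : ℚ))⁻¹ * w l) 0,
      fun j hj i u hu => ?_⟩
    rw [Fin.sum_univ_castSucc, Fin.snoc_last, zero_mul, add_zero, ← hw j hj i u hu]
    refine Finset.sum_congr rfl fun l _ => ?_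
    show _ * Polynomial.aeval (al j) ((c (l.castSucc, i, u)).map (Int.castRingHom ℚ)) = _
    rw [Fin.snoc_castSucc, hbc, hb', Fin.snoc_castSucc, map_mul, Polynomial.aeval_C]
    field_simp

end Pool.Agent.H46.SF2
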