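import Pool.Agent.H46.SF2.Pas
import Pool.Agent.H46.SF2.Jex
import Pool.Agent.H90.SF.Pta
import Pool.Agent.H96.SA.C7

/-! # [SF2 K2] THEOREM SF, phase 2: the certificate of type 1 exists

`cer_ex`: from the function field (`Fld (shf c F) t y`), the place at infinity (`Pt0`, `Pt`) and the numbers. All functions are written with one common
denominator `D(t)` (`den_ex`), the identities by `eqv_of`, regularity by `bd_int`, `bd_of`, integrality by `ig_int`, `ig_of`, the jets by `jex`, `jets_of`, Bezout by `bez`. One `Z` at the end. -/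

set_option autoImplicit false

namespace Pool.Agent.H46.SF2

open Pool.Agent.H98.AL Pool.Agent.H46.SF Pool.Agent.H85.SA Pool.Agent.H85.SF Pool.Agent.H90.SF Pool.Agent.H82.NS
  Pool.Agent.H12.ON Pool.Agent.H12.OG Pool.Agent.H12.SF2 Pool.Agent.H96.SA IntermediateField Filter

/-- Bezout for a polynomial irreducible over `ℚ` -/
theorem bez {q : Polynomial ℤ} (hi : Irreducible (q.map (Int.castRingHom ℚ))) :
    ∃ (U V : Polynomial ℤ) (N0 : ℤ), N0 ≠ 0 ∧ U * q + V * Polynomial.derivative q = Polynomial.C N0 :=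
  Pool.Agent.H96.SA.c6 hi.separable

/-- the jets -/
theorem jets_of {q : Polynomial ℤ} (hq : q.Monic) (hi : Irreducible (q.map (Int.castRingHom ℚ)))
    {s W m : ℕ} (b : Fin m → Fin s → Fin (4 * W) → Polynomial ℤ)
    (hS : SjL (q.map (Int.castRingHom ℚ)) (fun k i u => (b k i u).map (Int.castRingHom ℚ)) (AlgebraicClosure ℚ))
    (d : Dt) (hds : d.s = s) (hdW : d.W = W) (hdm : d.m = m)
    (hb : ∀ (k : Fin m) (i : Fin s) (u : Fin (4 * W)), d.b k i u = b k i u)
    (hl : ∀ (k : Fin m) (i : Fin s) (u : Fin (4 * W)), (b k i u).natDegree ≤ d.l) : Jets q d := by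
  haveI : Algebra.IsAlgebraic ℚ (AlgebraicClosure ℚ) := AlgebraicClosure.isAlgebraic ℚ
  refine Pool.Agent.H96.SA.c7 (K := AlgebraicClosure ℚ) hq
    ((hq.irreducible_iff_irreducible_map_fraction_map (K := ℚ)).2 hi) hS d hds hdW hdm ?_ (N := 1) one_ne_zero ?_
  · intro k hk i hi' u hu
    have h1 := hb ⟨k, hk⟩ ⟨i, hi'⟩ ⟨u, hu⟩
    have h2 := hl ⟨k, hk⟩ ⟨i, hi'⟩ ⟨u, hu⟩
    rw [← h1] at h2
    exact h2
  · intro k i u
    rw [hb]
    simp

/-- the value of `hm` -/
theorem vl_hm' {L : Type} [Field L] [CharZero L] (b : Polynomial ℤ) {l : ℕ} (hl : b.natDegree ≤ l) (A B : P2) {t y g : L}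
    {D : L} (hA : vl A t y = D * g) (hB : vl B t y = D) : vl (hm b l A B) t y = D ^ l * Polynomial.aeval g b := by
  have h1 : vl (hm b l A B) t y = hm b l (vl A t y) (vl B t y) :=
    hm_map (MvPolynomial.eval₂Hom (Int.castRingHom L) ![t, y]) b l A B
  rw [h1, hA, hB]
  unfold hm
  rw [Polynomial.aeval_eq_sum_range' (Nat.lt_succ_of_le hl), Finset.mul_sum]
  refine Finset.sum_congr rfl fun i hi => ?_
  have hi' : i ≤ l := by
    have := Finset.mem_range.1 hi
    omega
  obtain ⟨j, rfl⟩ := Nat.exists_eq_add_of_le hi'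
  rw [Nat.add_sub_cancel_left, pow_add, mul_pow, zsmul_eq_mul]
  ring

private theorem vl_fs {L : Type} [Field L] {ι : Type} (s : Finset ι) (f : ι → P2) (t y : L) :
    vl (∑ i ∈ s, f i) t y = ∑ i ∈ s, vl (f i) t y := by
  classical
  induction s using Finset.induction_on with
  | empty => rw [Finset.sum_empty, Finset.sum_empty, vl_zero]
  | insert a s ha ih => rw [Finset.sum_insert ha, Finset.sum_insert ha, vl_add, ih]

/-- the coefficient of `y^d` -/
theorem lc_of {F : P2} {c d : ℕ} (hd : (MvPolynomial.map (Int.castRingHom ℚ) F).totalDegree ≤ d)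
    (hc : Pool.Agent.H12.SF.tpf d (MvPolynomial.map (Int.castRingHom ℚ) F) (c : ℚ) ≠ 0) :
    (shf c F).totalDegree = d ∧ MvPolynomial.coeff (Finsupp.single 1 (shf c F).totalDegree) (shf c F) ≠ 0 := by
  have h1 : MvPolynomial.coeff (Finsupp.single 1 d) (shf c F) ≠ 0 := by
    intro h0
    have h2 := tau_coeff (shf c F) 0 d
    have h3 : Pool.Agent.H12.SF.mij 0 d = Finsupp.single 1 d := by
      unfold Pool.Agent.H12.SF.mij
      simp
    rw [h3, h0, tau_shf, sbp_top hd, Polynomial.coeff_C_zero] at h2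
    exact hc (by rw [h2]; simp)
  have h2 : (shf c F).totalDegree ≤ d := by
    refine Finset.sup_le fun m hm => ?_
    rw [Finsupp.sum_fintype _ _ (fun _ => rfl), Fin.sum_univ_two]
    have h3 := tau_coeff (shf c F) (m 0) (m 1)
    rw [Pool.Agent.H12.SF.mij_eta, tau_shf] at h3
    have h4 : ((MvPolynomial.coeff m (shf c F) : ℤ) : ℚ) ≠ 0 := by
      exact_mod_cast MvPolynomial.mem_support_iff.1 hm
    rw [← h3] at h4
    have h5 : (sbp c (MvPolynomial.map (Int.castRingHom ℚ) F)).coeff (m 1) ≠ 0 := by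
      intro h6
      rw [h6, Polynomial.coeff_zero] at h4
      exact h4 rfl
    have h6 := sbp_wt (c := c) hd (m 1) h5
    have h7 := Polynomial.le_natDegree_of_ne_zero h4
    omega
  have h3 : d ≤ (shf c F).totalDegree := by
    have h4 := MvPolynomial.le_totalDegree (MvPolynomial.mem_support_iff.2 h1)
    rw [Finsupp.sum_single_index rfl] at h4
    exact h4
  have h4 := le_antisymm h2 h3
  exact ⟨h4, by rw [h4]; exact h1⟩

theorem cer_ex {F : P2} {q : Polynomial ℤ} (hq : q.Monic) {c : ℕ}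
    (hlc : MvPolynomial.coeff (Finsupp.single 1 (shf c F).totalDegree) (shf c F) ≠ 0)
    {L : Type} [Field L] [CharZero L] {t y : L} (hF : Fld (shf c F) t y) {O : ValuationSubring L} {g π : L}
    {e s γ : ℕ} {z : Fin s → L} (h0 : Pt0 ℚ t O (q.map (Int.castRingHom ℚ)) g π e s z)
    (h : Pt ℚ t O (q.map (Int.castRingHom ℚ)) g π s γ z) (hr : 4 ≤ q.natDegree) {W κ : ℕ} (hW1 : 1 ≤ W)
    (hW : 3 * γ + q.natDegree * s ≤ s * W * (q.natDegree - 3))
    (hnum : (88 * W + 46) * s * q.natDegree ≤ κ) : ∃ (Z : ℕ) (d : Dt), Cer F q κ Z d := by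
  classical
  have hdq : (q.map (Int.castRingHom ℚ)).natDegree = q.natDegree :=
    Polynomial.natDegree_map_eq_of_injective Int.cast_injective q
  obtain ⟨m, N, φ, g', b, hN, hφ, hφl, hg', hPg, hexp, hS⟩ := jex h (by rw [hdq]; exact hr) (W := W)
    (by rw [hdq]; exact hW)
  obtain ⟨U, V, N0, hN0, hUV⟩ := bez h0.irr
  -- the functions
  have hπO : π ∈ O := O.nonunits_subset h.πm
  have ht0 : t ≠ 0 := by
    intro h1
    exact h0.inf.pole (by rw [h1]; exact O.zero_mem)
  obtain ⟨ρ, hρ⟩ : ∃ ρ : Fin (m + 1) → L, ∀ k, ρ k = (π ^ (2 * W) * φ k -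
    ∑ i, ∑ u : Fin (4 * W), Polynomial.aeval g' (b k i u) * z i * π ^ (u : ℕ)) / π ^ (4 * W) := ⟨_, fun _ => rfl⟩
  obtain ⟨v, hv⟩ : ∃ v : L, v = t⁻¹ / π ^ e := ⟨_, rfl⟩
  obtain ⟨η, hη⟩ : ∃ η : L, η = Polynomial.aeval g' (q.map (Int.castRingHom ℚ)) / π ^ (4 * W) := ⟨_, rfl⟩
  obtain ⟨D, A, hD, hA⟩ := den_ex hF (ι := Fin 4 ⊕ Fin s ⊕ Fin (m + 1) ⊕ Fin (m + 1))
    (Sum.elim ![π, v, g', η] (Sum.elim z (Sum.elim φ ρ)))
  have hAπ : Polynomial.aeval t D * π = vl (A (Sum.inl 0)) t y := hA (Sum.inl 0)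
  have hAv : Polynomial.aeval t D * v = vl (A (Sum.inl 1)) t y := hA (Sum.inl 1)
  have hAg : Polynomial.aeval t D * g' = vl (A (Sum.inl 2)) t y := hA (Sum.inl 2)
  have hAη : Polynomial.aeval t D * η = vl (A (Sum.inl 3)) t y := hA (Sum.inl 3)
  have hAz : ∀ i, Polynomial.aeval t D * z i = vl (A (Sum.inr (Sum.inl i))) t y := fun i => hA (Sum.inr (Sum.inl i))
  have hAφ : ∀ k, Polynomial.aeval t D * φ k = vl (A (Sum.inr (Sum.inr (Sum.inl k)))) t y :=
    fun k => hA (Sum.inr (Sum.inr (Sum.inl k)))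
  have hAρ : ∀ k, Polynomial.aeval t D * ρ k = vl (A (Sum.inr (Sum.inr (Sum.inr k)))) t y :=
    fun k => hA (Sum.inr (Sum.inr (Sum.inr k)))
  obtain ⟨DD, hDD⟩ : ∃ DD : L, DD = Polynomial.aeval t D := ⟨_, rfl⟩
  rw [← hDD] at hAπ hAv hAg hAη
  simp only [← hDD] at hAz hAφ hAρ
  have hem : vl (H85.SA.em D) t y = DD := by rw [vl_em, hDD]
  -- the degree bound
  obtain ⟨l, hl⟩ : ∃ l : ℕ, ∀ (k : Fin (m + 1)) (i : Fin s) (u : Fin (4 * W)), (b k i u).natDegree ≤ l :=
    ⟨∑ k, ∑ i, ∑ u, (b k i u).natDegree, fun k i u =>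
      (Finset.single_le_sum (f := fun u => (b k i u).natDegree) (fun _ _ => Nat.zero_le _) (Finset.mem_univ u)).trans
        ((Finset.single_le_sum (f := fun i => ∑ u, (b k i u).natDegree) (fun _ _ => Nat.zero_le _) (Finset.mem_univ i)).trans
          (Finset.single_le_sum (f := fun k => ∑ i, ∑ u, (b k i u).natDegree) (fun _ _ => Nat.zero_le _)
            (Finset.mem_univ k)))⟩
  obtain ⟨bN, hbN⟩ : ∃ bN : ℕ → ℕ → ℕ → Polynomial ℤ, ∀ (k : Fin (m + 1)) (i : Fin s) (u : Fin (4 * W)),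
      bN k i u = b k i u :=
    ⟨fun k i u => if hk : k < m + 1 then if hi : i < s then if hu : u < 4 * W then b ⟨k, hk⟩ ⟨i, hi⟩ ⟨u, hu⟩
      else 0 else 0 else 0, fun k i u => by dsimp only; rw [dif_pos k.2, dif_pos i.2, dif_pos u.2]⟩
  obtain ⟨zN, hzN⟩ : ∃ zN : ℕ → P2, ∀ i : Fin s, zN i = A (Sum.inr (Sum.inl i)) :=
    ⟨fun i => if hi : i < s then A (Sum.inr (Sum.inl ⟨i, hi⟩)) else 0, fun i => by dsimp only; rw [dif_pos i.2]⟩
  obtain ⟨φN, hφN⟩ : ∃ φN : ℕ → P2, ∀ k : Fin (m + 1), φN k = A (Sum.inr (Sum.inr (Sum.inl k))) :=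
    ⟨fun k => if hk : k < m + 1 then A (Sum.inr (Sum.inr (Sum.inl ⟨k, hk⟩))) else 0, fun k => by dsimp only; rw [dif_pos k.2]⟩
  obtain ⟨ρN, hρN⟩ : ∃ ρN : ℕ → P2, ∀ k : Fin (m + 1), ρN k = A (Sum.inr (Sum.inr (Sum.inr k))) :=
    ⟨fun k => if hk : k < m + 1 then A (Sum.inr (Sum.inr (Sum.inr ⟨k, hk⟩))) else 0, fun k => by dsimp only; rw [dif_pos k.2]⟩
  obtain ⟨d, hd⟩ : ∃ d : Dt, d = Dt.mk c e s W (m + 1) l D (A (Sum.inl 0)) (A (Sum.inl 1)) (A (Sum.inl 2))
    (A (Sum.inl 3)) zN φN ρN bN (fun k => if k = m then 1 else 0) N U V N0 := ⟨_, rfl⟩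
  have hjets : Jets q d := by
    refine jets_of hq h0.irr b hS d ?_ ?_ ?_ ?_ ?_
    · rw [hd]
    · rw [hd]
    · rw [hd]
    · intro k i u
      rw [hd]
      exact hbN k i u
    · intro k i u
      rw [hd]
      exact hl k i u
  -- regular functions
  have reg : ∀ {w : L} {D' B : P2}, w ∈ O → vl D' t y * w = vl B t y → ∀ᶠ Z : ℕ in atTop, Bd (shf c F) Z D' B :=
    fun hw hB => bd_of hF hB (bd_int h0.ff h0.uni hw)
  have hvO : v ∈ O := by rw [hv]; exact h0.x1
  have hηO : η ∈ O := by rw [hη]; exact hPg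
  have hρO : ∀ k, ρ k ∈ O := fun k => by rw [hρ]; exact hexp k
  have e1 := reg hπO (D' := H85.SA.em D) (B := A (Sum.inl 0)) (by rw [hem, hAπ])
  have e2 := reg hvO (D' := H85.SA.em D) (B := A (Sum.inl 1)) (by rw [hem, hAv])
  have e3 := reg h0.x2 (D' := H85.SA.em D ^ e) (B := MvPolynomial.X 0 * A (Sum.inl 0) ^ e) (by
    rw [vl_pow, hem, vl_mul, vl_X0, vl_pow, ← hAπ]
    ring)
  have e4 := reg hg' (D' := H85.SA.em D) (B := A (Sum.inl 2)) (by rw [hem, hAg])
  have e5 := reg hηO (D' := H85.SA.em D) (B := A (Sum.inl 3)) (by rw [hem, hAη])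
  have e6 : ∀ᶠ Z : ℕ in atTop, ∀ i : Fin s, Bd (shf c F) Z (H85.SA.em D) (zN i) :=
    eventually_all.2 fun i => reg (h.zO i) (by rw [hem, hAz, hzN])
  have e7 : ∀ᶠ Z : ℕ in atTop, ∀ k : Fin (m + 1), Bd (shf c F) Z (H85.SA.em D) (ρN k) :=
    eventually_all.2 fun k => reg (hρO k) (by rw [hem, hAρ, hρN])
  have e8 : ∀ᶠ Z : ℕ in atTop, ∀ k : Fin (m + 1), Ig (shf c F) Z (H85.SA.em D) (φN k) :=
    eventually_all.2 fun k => ig_of hF (by rw [hem, hAφ, hφN]) (ig_int (hφ k))
  have e9 : ∀ᶠ Z : ℕ in atTop, ∀ (k : Fin (m + 1)) (i : Fin s) (u : Fin (4 * W)), Sz Z (b k i u) :=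
    eventually_all.2 fun k => eventually_all.2 fun i => eventually_all.2 fun u => sz_ev _
  have e10 := sz_ev D
  have e11 := sz_ev q
  have e12 := sz_ev U
  have e13 := sz_ev V
  have e14 : ∀ᶠ Z : ℕ in atTop, ∀ w, |MvPolynomial.coeff w (shf c F)| ≤ (Z : ℤ) := by
    filter_upwards [eventually_ge_atTop (∑ w ∈ (shf c F).support, (MvPolynomial.coeff w (shf c F)).natAbs)] with Z hZ w
    by_cases hw : w ∈ (shf c F).support
    · have h1 := Finset.single_le_sum (f := fun w => (MvPolynomial.coeff w (shf c F)).natAbs)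
        (fun _ _ => Nat.zero_le _) hw
      have h2 : (MvPolynomial.coeff w (shf c F)).natAbs ≤ Z := h1.trans hZ
      rw [Int.abs_eq_natAbs]
      exact_mod_cast h2
    · rw [MvPolynomial.notMem_support_iff.1 hw, abs_zero]
      positivity
  have e15 := eventually_ge_atTop (2 + c + (shf c F).totalDegree + e + s + W + (m + 1) + l)
  obtain ⟨Z, z1, z2, z3, z4, z5, z6, z7, z8, z9, z10, z11, z12, z13, z14, z15⟩ :=
    (e1.and (e2.and (e3.and (e4.and (e5.and (e6.and (e7.and (e8.and (e9.and (e10.and (e11.and (e12.and (e13.and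
      (e14.and e15)))))))))))))).exists
  have hz0 : ∀ n : ℕ, π ^ n ≠ 0 := fun n => pow_ne_zero _ h0.π0
  have hvt : t * π ^ e * v = 1 := by
    rw [hv]
    field_simp [hz0 e]
  have hηq : Polynomial.aeval g' q = η * π ^ (4 * W) := by
    rw [hη, div_mul_cancel₀ _ (hz0 _), ← algebraMap_int_eq, Polynomial.aeval_map_algebraMap]
  have hρk : ∀ k, π ^ (2 * W) * φ k = (∑ i, ∑ u : Fin (4 * W), Polynomial.aeval g' (b k i u) * z i * π ^ (u : ℕ)) +
      ρ k * π ^ (4 * W) := by
    intro k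
    rw [hρ, div_mul_cancel₀ _ (hz0 _)]
    ring
  refine ⟨Z, d, ?_⟩
  exact
    { Z2 := by omega
      cZ := by rw [hd]; show c ≤ Z; omega
      lc := by rw [hd]; exact hlc
      dZ := by rw [hd]; show (shf c F).totalDegree ≤ Z; omega
      FZ := by rw [hd]; exact z14
      e1 := by rw [hd]; exact h0.e1
      eZ := by rw [hd]; show e ≤ Z; omega
      s1 := by rw [hd]; exact h0.s1
      sZ := by rw [hd]; show s ≤ Z; omega
      W1 := by rw [hd]; exact hW1
      WZ := by rw [hd]; show W ≤ Z; omega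
      mZ := by rw [hd]; show m + 1 ≤ Z; omega
      lZ := by rw [hd]; show l ≤ Z; omega
      D0 := by rw [hd]; exact hD
      DZ := by rw [hd]; exact z10
      qZ := z11
      eq1 := by
        rw [hd]
        refine eqv_of hF ?_
        show vl (MvPolynomial.X 0 * A (Sum.inl 0) ^ e * A (Sum.inl 1)) t y = vl (H85.SA.em D ^ (e + 1)) t y
        rw [vl_mul, vl_mul, vl_pow, vl_pow, vl_X0, hem, ← hAπ, ← hAv, mul_pow, pow_succ]
        linear_combination (DD ^ e * DD) * hvt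
      bpi := by rw [hd]; exact z1
      bv := by rw [hd]; exact z2
      bt := by rw [hd]; exact z3
      bg := by rw [hd]; exact z4
      beta := by rw [hd]; exact z5
      eq2 := by
        rw [hd]
        refine eqv_of hF ?_
        show vl (hm q q.natDegree (A (Sum.inl 2)) (H85.SA.em D) * H85.SA.em D ^ (4 * W + 1)) t y =
          vl (A (Sum.inl 3) * A (Sum.inl 0) ^ (4 * W) * H85.SA.em D ^ q.natDegree) t y
        rw [vl_mul, vl_hm' q le_rfl _ _ hAg.symm hem, vl_mul, vl_mul, vl_pow, vl_pow, vl_pow, hem, ← hAη, ← hAπ, hηq,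
          mul_pow, pow_succ]
        ring
      bz := by
        rw [hd]
        intro i hi
        exact z6 ⟨i, hi⟩
      brho := by
        rw [hd]
        intro k hk
        exact z7 ⟨k, hk⟩
      blb := by
        rw [hd]
        intro k hk i hi u hu
        have h1 := hbN ⟨k, hk⟩ ⟨i, hi⟩ ⟨u, hu⟩
        show (bN k i u).natDegree ≤ l ∧ Sz Z (bN k i u)
        rw [h1]
        exact ⟨hl _ _ _, z9 _ _ _⟩
      eq4 := by
        rw [hd]
        intro k hk
        refine eqv_of hF ?_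
        show vl (A (Sum.inl 0) ^ (2 * W) * φN k * H85.SA.em D ^ (l + 2 * W)) t y =
          vl ((∑ i ∈ Finset.range s, ∑ u ∈ Finset.range (4 * W),
            hm (bN k i u) l (A (Sum.inl 2)) (H85.SA.em D) * zN i * A (Sum.inl 0) ^ u * H85.SA.em D ^ (4 * W - u)) +
            ρN k * A (Sum.inl 0) ^ (4 * W) * H85.SA.em D ^ l) t y
        rw [vl_add, vl_fs, vl_mul, vl_mul, vl_pow, vl_pow, hem, ← hAπ, vl_mul, vl_mul, vl_pow, vl_pow, hem, ← hAπ]
        have h1 : vl (φN k) t y = DD * φ ⟨k, hk⟩ := by rw [hAφ]; exact congrArg (fun w => vl w t y) (hφN ⟨k, hk⟩)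
        have h2 : vl (ρN k) t y = DD * ρ ⟨k, hk⟩ := by rw [hAρ]; exact congrArg (fun w => vl w t y) (hρN ⟨k, hk⟩)
        have h3 : ∀ i ∈ Finset.range s, vl (∑ u ∈ Finset.range (4 * W),
            hm (bN k i u) l (A (Sum.inl 2)) (H85.SA.em D) * zN i * A (Sum.inl 0) ^ u * H85.SA.em D ^ (4 * W - u)) t y =
            if hi : i < s then DD ^ (l + 4 * W + 1) * ∑ u : Fin (4 * W), Polynomial.aeval g' (b ⟨k, hk⟩ ⟨i, hi⟩ u) *
              z ⟨i, hi⟩ * π ^ (u : ℕ) else 0 := by
          intro i hi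
          have hi' := Finset.mem_range.1 hi
          rw [dif_pos hi', vl_fs, Finset.sum_range, Finset.mul_sum]
          refine Finset.sum_congr rfl fun u _ => ?_
          have h4 : bN k i u = b ⟨k, hk⟩ ⟨i, hi'⟩ u := hbN ⟨k, hk⟩ ⟨i, hi'⟩ u
          have h5 : vl (zN i) t y = DD * z ⟨i, hi'⟩ := by
            rw [hAz]; exact congrArg (fun w => vl w t y) (hzN ⟨i, hi'⟩)
          have h6 : DD ^ (4 * W) = DD ^ (u : ℕ) * DD ^ (4 * W - u) := by
            rw [← pow_add]
            congr 1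
            have := u.2
            omega
          rw [h4, vl_mul, vl_mul, vl_mul, vl_hm' _ (hl _ _ _) _ _ hAg.symm hem, h5, vl_pow, vl_pow, hem, ← hAπ,
            pow_add, pow_add, h6]
          ring
        rw [Finset.sum_congr rfl h3, h1, h2]
        have h7 : ∑ i ∈ Finset.range s, (if hi : i < s then DD ^ (l + 4 * W + 1) * ∑ u : Fin (4 * W),
            Polynomial.aeval g' (b ⟨k, hk⟩ ⟨i, hi⟩ u) * z ⟨i, hi⟩ * π ^ (u : ℕ) else 0) =
            DD ^ (l + 4 * W + 1) * ∑ i, ∑ u : Fin (4 * W), Polynomial.aeval g' (b ⟨k, hk⟩ i u) * z i * π ^ (u : ℕ) := by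
          rw [Finset.sum_range, Finset.mul_sum]
          refine Finset.sum_congr rfl fun i _ => ?_
          rw [dif_pos i.2]
        rw [h7]
        have h8 := hρk ⟨k, hk⟩
        have h9 : DD ^ (l + 4 * W + 1) = DD ^ (2 * W) * DD * DD ^ (l + 2 * W) := by
          rw [← pow_succ, ← pow_add]
          congr 1
          omega
        have h10 : DD ^ (l + 4 * W + 1) = DD * DD ^ (4 * W) * DD ^ l := by
          rw [← pow_succ', ← pow_add]
          congr 1
          omega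
        have h11 : DD * ρ ⟨k, hk⟩ * (DD * π) ^ (4 * W) * DD ^ l = DD ^ (l + 4 * W + 1) * (ρ ⟨k, hk⟩ * π ^ (4 * W)) := by
          rw [h10, mul_pow]
          ring
        rw [h11, ← mul_add, ← h8, h9, mul_pow]
        ring
      ig := by
        rw [hd]
        intro k hk
        exact z8 ⟨k, hk⟩
      l0 := by rw [hd]; exact hN
      eq5 := by
        rw [hd]
        refine eqv_of hF ?_
        show vl (∑ k ∈ Finset.range (m + 1), MvPolynomial.C (if k = m then (1 : ℤ) else 0) * φN k) t y =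
          vl (MvPolynomial.C N * H85.SA.em D) t y
        rw [vl_fs, vl_mul, vl_C, hem, Finset.sum_range_succ, if_pos rfl, Finset.sum_eq_zero, zero_add, vl_mul, vl_C]
        · have h1 : vl (φN m) t y = DD * φ (Fin.last m) := by
            rw [hAφ]; exact congrArg (fun w => vl w t y) (hφN (Fin.last m))
          rw [h1, hφl]
          push_cast
          ring
        · intro k hk
          have := Finset.mem_range.1 hk
          rw [if_neg (by omega), vl_mul, vl_C]
          push_cast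
          ring
      n0 := by rw [hd]; exact hN0
      UZ := by rw [hd]; exact z12
      VZ := by rw [hd]; exact z13
      eq6 := by rw [hd]; exact hUV
      jets := hjets
      num := by rw [hd]; exact hnum }

end Pool.Agent.H46.SF2
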