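import Pool.Agent.H46.SF2.Cmp
import Pool.Agent.H65.RG.Cpl
import Pool.Agent.H12.SF2.One
import Pool.Agent.H85.SA.Stg
import Pool.Agent.H98.SFA.Dov

/-! # [SF2] THEOREM SF, phase 2: COMPLETENESS, all three types of certificates

`two_places`: `F` absolutely irreducible, not `OnePlace F`: a certificate of type 2 (Runge). `completeG`: the hypotheses of the clause about
the algorithm: a certificate (`CerG`). -/

set_option autoImplicit false

namespace Pool.Agent.H46.SF2

open Pool.Agent.H98.AL Pool.Agent.H85.SA Pool.Agent.H85.SF Pool.Agent.H82.NS Pool.Agent.H12.SF2 Pool.Agent.H65.RG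

private theorem two_w {F : P2} {L : Type} [Field L] [CharZero L] {x y : L} {d c : ℕ} {f : Polynomial (Polynomial ℚ)}
    (w : Wq F x y d c f) {O : ValuationSubring L} (hinf : Inf ℚ (x + c * y) O)
    (h : ¬ ∀ V : ValuationSubring L, Inf ℚ (x + c * y) V → V = O) : ∃ (Z : ℕ) (d : Dr), Cer2 F Z d := by
  push Not at h
  obtain ⟨V, hV, hne⟩ := h
  have hd : (MvPolynomial.map (Int.castRingHom ℚ) F).totalDegree ≤ d := by
    rw [← w.gd]
    exact Finset.sup_mono (MvPolynomial.support_map_subset (Int.castRingHom ℚ) F)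
  exact cer2_ex (fld_w w) w.ff (lc_of hd w.ct).2 hinf hV hne.symm

theorem two_places {F : P2} (hF : Irreducible (MvPolynomial.map (Int.castRingHom (AlgebraicClosure ℚ)) F))
    (h : ¬ OnePlace F) : ∃ (Z : ℕ) (d : Dr), Cer2 F Z d := by
  obtain ⟨L, i1, i2, x, y, d, c, f, w⟩ := wq_ex hF
  obtain ⟨O, hinf⟩ := inf_ex w
  exact two_w w hinf fun huni => h (one_of_uni w huni)

theorem completeG {F : P2} (hF : Irreducible (MvPolynomial.map (Int.castRingHom (AlgebraicClosure ℚ)) F))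
    (h : ¬ OnePlace F ∨ ∃ (q : Polynomial ℤ) (B g : ℕ), Special q B (300 * (F.totalDegree + g)) ∧ AtInf q F ∧
      GenusLE F g) : ∃ Z, CerG F Z := by
  by_cases h1 : OnePlace F
  · obtain ⟨q, B, g, hq, ha, hg⟩ := h.resolve_left (not_not_intro h1)
    rcases complete1q hF h1 hq ha hg with ⟨Z, hZ⟩ | ⟨Z, κ, d, hκ, hr, hd⟩
    · exact ⟨Z, Or.inl hZ⟩
    · rw [← hκ] at hq
      obtain ⟨Z', hZ'⟩ := spc_ex hq hr
      exact ⟨max Z Z', Or.inr (Or.inr ⟨q, κ, spc_mono hZ' (le_max_right _ _), d,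
        Pool.Agent.H98.SFA.cer_mono (le_max_left _ _) hd⟩)⟩
  · obtain ⟨Z, d, hd⟩ := two_places hF h1
    exact ⟨Z, Or.inr (Or.inl ⟨d, hd⟩)⟩

end Pool.Agent.H46.SF2
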