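import Pool.Agent.H46.SF2.Cex
import Pool.Agent.H12.SF2.Pla
import Pool.Agent.H12.SF2.Ce0
import Pool.Agent.H90.SF2.Gin
import Pool.Agent.H46.SF.Lev
import Pool.Agent.H85.SF.Lio

/-! # [SF2 K2] THEOREM SF, phase 2: COMPLETENESS OF THE CERTIFICATES

`complete1`: `F` absolutely irreducible with only one place at infinity: a certificate of type 0 (no real place) or of type 1. -/

set_option autoImplicit false

namespace Pool.Agent.H46.SF2

open Pool.Agent.H98.AL Pool.Agent.H46.SF Pool.Agent.H85.SA Pool.Agent.H85.SF Pool.Agent.H90.SF Pool.Agent.H82.NS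
  Pool.Agent.H12.ON Pool.Agent.H12.OG Pool.Agent.H12.SF2 Pool.Agent.H90.SF2 IntermediateField Filter

private theorem wv_ex {r s γ : ℕ} (hr : 4 ≤ r) (hs : 1 ≤ s) :
    ∃ W, 1 ≤ W ∧ 3 * γ + r * s ≤ s * W * (r - 3) ∧ s * W * (r - 3) ≤ 3 * γ + r * s + s * (r - 3) := by
  have h0 : 0 < s * (r - 3) := Nat.mul_pos hs (by omega)
  refine ⟨(3 * γ + r * s) / (s * (r - 3)) + 1, Nat.succ_pos _, ?_, ?_⟩
  · have h1 := Nat.lt_mul_div_succ (3 * γ + r * s) h0
    have h2 : s * ((3 * γ + r * s) / (s * (r - 3)) + 1) * (r - 3) =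
        s * (r - 3) * ((3 * γ + r * s) / (s * (r - 3)) + 1) := by ring
    rw [h2]
    exact h1.le
  · have h1 := Nat.mul_div_le (3 * γ + r * s) (s * (r - 3))
    have h2 : s * ((3 * γ + r * s) / (s * (r - 3)) + 1) * (r - 3) =
        s * (r - 3) * ((3 * γ + r * s) / (s * (r - 3))) + s * (r - 3) := by ring
    rw [h2]
    exact Nat.add_le_add_right h1 _

/-- the numbers, with room for the degree of `q` -/
theorem num' {r s γ n W : ℕ} (hr : 25 ≤ r) (hs : 1 ≤ s) (hn : r * s ≤ n)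
    (hW : s * W * (r - 3) ≤ 3 * γ + r * s + s * (r - 3)) :
    (88 * W + 46) * s * r + r ≤ 300 * (n + γ) := by
  obtain ⟨t, rfl⟩ : ∃ t, r = t + 3 := ⟨r - 3, by omega⟩
  rw [Nat.add_sub_cancel] at hW
  have ht : 22 ≤ t := by omega
  have h0 : (88 * W + 46) * s * (t + 3) + (t + 3) ≤ (88 * W + 47) * s * (t + 3) := by
    have h1 : (t + 3) * 1 ≤ (t + 3) * s := Nat.mul_le_mul_left _ hs
    nlinarith
  refine h0.trans ?_
  have h1 : (88 * W + 47) * s * (t + 3) * t ≤ 300 * (n + γ) * t := by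
    have h2 : 88 * (t + 3) * (s * W * t) ≤ 88 * (t + 3) * (3 * γ + (t + 3) * s + s * t) :=
      Nat.mul_le_mul_left _ hW
    have h3 : 300 * ((t + 3) * s + γ) * t ≤ 300 * (n + γ) * t := by gcongr
    refine le_trans ?_ h3
    have h4 : (88 * W + 47) * s * (t + 3) * t = 88 * (t + 3) * (s * W * t) + 47 * s * (t + 3) * t := by ring
    rw [h4]
    refine le_trans (Nat.add_le_add_right h2 _) ?_
    have h5 : 22 * γ ≤ t * γ := Nat.mul_le_mul_right _ ht
    have h6 : 22 * (s * t) ≤ t * (s * t) := Nat.mul_le_mul_right _ ht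
    have h7 : 22 * s ≤ t * s := Nat.mul_le_mul_right _ ht
    nlinarith
  exact Nat.le_of_mul_le_mul_right h1 (by omega)

/-- COMPLETENESS, one place at infinity, with room for the degree of `q` -/
theorem complete_k {F : P2} {L : Type} [Field L] [CharZero L] {x y : L} {d c : ℕ} {f : Polynomial (Polynomial ℚ)}
    (w : Wq F x y d c f) {O : ValuationSubring L} (hinf : Inf ℚ (x + c * y) O)
    (huni : ∀ V : ValuationSubring L, Inf ℚ (x + c * y) V → V = O) {q : Polynomial ℤ} {B g : ℕ}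
    (hq : Special q B (300 * (F.totalDegree + g))) (ha : AtInf q F) (hg : GenusLE F g) :
    (∃ Z, Cer0 F Z) ∨ ∃ κ₀ : ℕ, κ₀ + q.natDegree ≤ 300 * (F.totalDegree + g) ∧ 25 ≤ q.natDegree ∧
      ∀ κ, κ₀ ≤ κ → ∃ (Z : ℕ) (d : Dt), Cer F q κ Z d := by
  by_cases hre : Nonempty (IsLocalRing.ResidueField O →+* ℝ)
  · right
    obtain ⟨⟨g0, hg0O, hg0⟩, α, hα⟩ := ginf w.ff hinf w.z' ((inf_iff w).1 hinf).2 ha hre
    have hqi : Irreducible (q.map (Int.castRingHom ℚ)) :=
      (Polynomial.IsPrimitive.Int.irreducible_iff_irreducible_map_cast hq.1.isPrimitive).1 hq.2.1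
    have hkap := hq.kappa hα
    have hdq : (q.map (Int.castRingHom ℚ)).natDegree = q.natDegree :=
      Polynomial.natDegree_map_eq_of_injective Int.cast_injective q
    obtain ⟨π, e, s, z, h0⟩ := pt0_ex w.ff w.rc hinf huni hqi hg0
    have hgen := gen_of (ri_w w hg) w.ff hinf w.fin.le h0.π0 h0.πm h0.unf h0.e1 h0.x1 h0.x2 hqi hg0O hg0 h0.zO
      h0.zi h0.zs
    have hpt := h0.pt hgen
    have hd1 : 1 ≤ F.totalDegree := by rw [w.gd]; exact w.d1
    have hrs : q.natDegree * s ≤ F.totalDegree := by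
      have h2 := h0.es
      rw [hdq] at h2
      calc q.natDegree * s = 1 * (q.natDegree * s) := (one_mul _).symm
        _ ≤ e * (q.natDegree * s) := Nat.mul_le_mul_right _ h0.e1
        _ ≤ _ := h2
        _ = d := w.fin
        _ = F.totalDegree := w.gd.symm
    have hrn : q.natDegree ≤ F.totalDegree := (Nat.le_mul_of_pos_right _ h0.s1).trans hrs
    have hr25 : 25 ≤ q.natDegree := by
      by_contra hlt
      have h2 : q.natDegree * (q.natDegree + 1) ≤ q.natDegree * 25 := Nat.mul_le_mul_left _ (by omega)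
      have h3 : 1 ≤ q.natDegree := by have := hq.2.2.1; omega
      omega
    obtain ⟨W, hW0, hW1, hW2⟩ := wv_ex (γ := g) (show 4 ≤ q.natDegree by omega) h0.s1
    have hnum := num' hr25 h0.s1 hrs hW2
    have hle : (MvPolynomial.map (Int.castRingHom ℚ) F).totalDegree ≤ d := by
      rw [← w.gd]
      exact Finset.sup_mono (MvPolynomial.support_map_subset (Int.castRingHom ℚ) F)
    exact ⟨(88 * W + 46) * s * q.natDegree, hnum, hr25, fun κ hκ =>
      cer_ex hq.1 (lc_of hle w.ct).2 (fld_w w) h0 hpt (by omega) hW0 hW1 hκ⟩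
  · left
    refine cer0_of w fun V hV => ?_
    rw [huni V hV]
    exact not_nonempty_iff.1 hre

/-- COMPLETENESS, one place at infinity -/
theorem complete_w {F : P2} {L : Type} [Field L] [CharZero L] {x y : L} {d c : ℕ} {f : Polynomial (Polynomial ℚ)}
    (w : Wq F x y d c f) {O : ValuationSubring L} (hinf : Inf ℚ (x + c * y) O)
    (huni : ∀ V : ValuationSubring L, Inf ℚ (x + c * y) V → V = O) {q : Polynomial ℤ} {B g : ℕ}
    (hq : Special q B (300 * (F.totalDegree + g))) (ha : AtInf q F) (hg : GenusLE F g) :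
    (∃ Z, Cer0 F Z) ∨ ∃ (Z : ℕ) (d : Dt), Cer F q (300 * (F.totalDegree + g)) Z d := by
  rcases complete_k w hinf huni hq ha hg with h | ⟨κ₀, h1, -, h2⟩
  · exact Or.inl h
  · exact Or.inr (h2 _ (by omega))

/-- COMPLETENESS, the form for the search over `q` -/
theorem complete_q {F : P2} {L : Type} [Field L] [CharZero L] {x y : L} {d c : ℕ} {f : Polynomial (Polynomial ℚ)}
    (w : Wq F x y d c f) {O : ValuationSubring L} (hinf : Inf ℚ (x + c * y) O)
    (huni : ∀ V : ValuationSubring L, Inf ℚ (x + c * y) V → V = O) {q : Polynomial ℤ} {B g : ℕ}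
    (hq : Special q B (300 * (F.totalDegree + g))) (ha : AtInf q F) (hg : GenusLE F g) :
    (∃ Z, Cer0 F Z) ∨ ∃ (Z κ : ℕ) (d : Dt), κ + q.natDegree = 300 * (F.totalDegree + g) ∧ 3 ≤ q.natDegree ∧
      Cer F q κ Z d := by
  rcases complete_k w hinf huni hq ha hg with h | ⟨κ₀, h1, h3, h2⟩
  · exact Or.inl h
  · obtain ⟨Z, d, h4⟩ := h2 (300 * (F.totalDegree + g) - q.natDegree) (by omega)
    exact Or.inr ⟨Z, _, d, by omega, by omega, h4⟩

/-- COMPLETENESS -/
theorem complete1 {F : P2} {q : Polynomial ℤ} {B g : ℕ}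
    (hF : Irreducible (MvPolynomial.map (Int.castRingHom (AlgebraicClosure ℚ)) F)) (h1 : OnePlace F)
    (hq : Special q B (300 * (F.totalDegree + g))) (ha : AtInf q F) (hg : GenusLE F g) :
    (∃ Z, Cer0 F Z) ∨ ∃ (Z : ℕ) (d : Dt), Cer F q (300 * (F.totalDegree + g)) Z d := by
  obtain ⟨L, i1, i2, x, y, d, c, f, w⟩ := wq_ex hF
  obtain ⟨O, hinf, huni⟩ := one_inf w h1
  exact complete_w w hinf huni hq ha hg

/-- COMPLETENESS, the form for the search over `q` -/
theorem complete1q {F : P2} {q : Polynomial ℤ} {B g : ℕ}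
    (hF : Irreducible (MvPolynomial.map (Int.castRingHom (AlgebraicClosure ℚ)) F)) (h1 : OnePlace F)
    (hq : Special q B (300 * (F.totalDegree + g))) (ha : AtInf q F) (hg : GenusLE F g) :
    (∃ Z, Cer0 F Z) ∨ ∃ (Z κ : ℕ) (d : Dt), κ + q.natDegree = 300 * (F.totalDegree + g) ∧ 3 ≤ q.natDegree ∧
      Cer F q κ Z d := by
  obtain ⟨L, i1, i2, x, y, d, c, f, w⟩ := wq_ex hF
  obtain ⟨O, hinf, huni⟩ := one_inf w h1
  exact complete_q w hinf huni hq ha hg

end Pool.Agent.H46.SF2
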