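import Pool.Agent.H46.SF.Mdl
import Pool.Agent.H98.AL.GEN
import Pool.Agent.H12.SF2.Bdo

/-! # [SF2 (R0)] THEOREM SF, phase 2: from `ℤ[x,y]` (`P2`) to `ℚ[X][Y]`

`tau F = F(X, Y) ∈ ℚ[X][Y]`. `tau` is injective, and every element of `ℚ[X][Y]` times a non-zero integer is a value. -/

set_option autoImplicit false

namespace Pool.Agent.H46.SF2

open Pool.Agent.H98.AL Pool.Agent.H46.SF

/-- `F(X,Y)` in `ℚ[X][Y]` -/
noncomputable def tau (F : P2) : Polynomial (Polynomial ℚ) := vl F (Polynomial.C Polynomial.X) Polynomial.X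

theorem tau_add (F G : P2) : tau (F + G) = tau F + tau G := vl_add _ _ _ _
theorem tau_mul (F G : P2) : tau (F * G) = tau F * tau G := vl_mul _ _ _ _
theorem tau_sub (F G : P2) : tau (F - G) = tau F - tau G := vl_sub _ _ _ _
theorem tau_C (a : ℤ) : tau (MvPolynomial.C a) = (a : Polynomial (Polynomial ℚ)) := vl_C _ _ _

theorem tau_coeff (F : P2) (i j : ℕ) : ((tau F).coeff j).coeff i =
    ((MvPolynomial.coeff (Pool.Agent.H12.SF.mij i j) F : ℤ) : ℚ) := by
  classical
  unfold tau
  rw [vl_sum, Polynomial.finsetSum_coeff, Polynomial.finsetSum_coeff]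
  have h : ∀ t : Fin 2 →₀ ℕ, ((((MvPolynomial.coeff t F : ℤ) : Polynomial (Polynomial ℚ)) *
      ((Polynomial.C Polynomial.X) ^ t 0 * Polynomial.X ^ t 1)).coeff j).coeff i =
      if t = Pool.Agent.H12.SF.mij i j then ((MvPolynomial.coeff t F : ℤ) : ℚ) else 0 := by
    intro t
    have h1 : (((MvPolynomial.coeff t F : ℤ) : Polynomial (Polynomial ℚ)) *
      ((Polynomial.C Polynomial.X) ^ t 0 * Polynomial.X ^ t 1)) =
      Polynomial.C (Polynomial.C ((MvPolynomial.coeff t F : ℤ) : ℚ) * Polynomial.X ^ t 0) * Polynomial.X ^ t 1 := by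
      rw [Polynomial.C_mul, Polynomial.C_pow]
      have h2 : ((MvPolynomial.coeff t F : ℤ) : Polynomial (Polynomial ℚ)) =
          Polynomial.C (Polynomial.C ((MvPolynomial.coeff t F : ℤ) : ℚ)) := by
        simp
      rw [h2]
      ring
    rw [h1, Polynomial.coeff_C_mul_X_pow]
    by_cases hj : j = t 1
    · rw [if_pos hj, Polynomial.coeff_C_mul_X_pow]
      by_cases hi : i = t 0
      · rw [if_pos hi, if_pos]
        rw [hi, hj, Pool.Agent.H12.SF.mij_eta]
      · rw [if_neg hi, if_neg]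
        intro h3
        apply hi
        rw [h3, Pool.Agent.H12.SF.mij_zero]
    · rw [if_neg hj, Polynomial.coeff_zero, if_neg]
      intro h3
      apply hj
      rw [h3, Pool.Agent.H12.SF.mij_one]
  rw [Finset.sum_congr rfl fun t _ => h t, Finset.sum_ite_eq']
  split_ifs with h1
  · rfl
  · rw [MvPolynomial.notMem_support_iff.1 h1]
    simp

theorem tau_inj {F G : P2} (h : tau F = tau G) : F = G := by
  ext m
  have h1 := tau_coeff F (m 0) (m 1)
  rw [h, tau_coeff G, Pool.Agent.H12.SF.mij_eta] at h1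
  exact_mod_cast h1.symm

/-- the polynomial `q(x)` in `ℤ[x,y]` -/
noncomputable def px (q : Polynomial ℤ) : P2 := Polynomial.aeval (MvPolynomial.X 0 : P2) q

theorem vl_px' {S : Type*} [CommRing S] (q : Polynomial ℤ) (x y : S) :
    vl (px q) x y = Polynomial.eval₂ (Int.castRingHom S) x q := by
  unfold px vl
  have h := Polynomial.hom_eval₂ q (algebraMap ℤ P2) (MvPolynomial.eval₂Hom (Int.castRingHom S) ![x, y])
    (MvPolynomial.X 0 : P2)
  have h1 : (MvPolynomial.eval₂Hom (Int.castRingHom S) ![x, y]).comp (algebraMap ℤ P2) = Int.castRingHom S :=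
    RingHom.ext_int _ _
  rw [h1, MvPolynomial.eval₂Hom_X'] at h
  rw [Polynomial.aeval_def]
  exact h

theorem vl_px {S : Type*} [CommRing S] (q : Polynomial ℤ) (x y : S) : vl (px q) x y = Polynomial.aeval x q := by
  rw [vl_px', Polynomial.aeval_def]
  rfl

theorem tau_px (q : Polynomial ℤ) : tau (px q) = Polynomial.C (q.map (Int.castRingHom ℚ)) := by
  unfold tau
  rw [vl_px', Polynomial.map, Polynomial.hom_eval₂]
  congr 1

theorem tau_X1 : tau (MvPolynomial.X 1) = Polynomial.X := vl_X1 _ _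

theorem tau_pow (F : P2) (n : ℕ) : tau (F ^ n) = tau F ^ n := vl_pow _ _ _ _

theorem tau_zero : tau 0 = 0 := vl_zero _ _

theorem tau_sum {ι : Type} (s : Finset ι) (f : ι → P2) : tau (∑ i ∈ s, f i) = ∑ i ∈ s, tau (f i) := by
  classical
  induction s using Finset.induction_on with
  | empty => rw [Finset.sum_empty, Finset.sum_empty, tau_zero]
  | insert a s ha ih => rw [Finset.sum_insert ha, Finset.sum_insert ha, tau_add, ih]

theorem tau_sur (P : Polynomial (Polynomial ℚ)) : ∃ (m : ℤ) (F : P2), m ≠ 0 ∧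
    tau F = Polynomial.C (Polynomial.C (m : ℚ)) * P := by
  obtain ⟨m, q, hm, -, hq⟩ := Pool.Agent.H12.SF2.clear (N := P.natDegree) (fun j => P.coeff j)
  refine ⟨m, ∑ j ∈ Finset.range (P.natDegree + 1), px (q j) * MvPolynomial.X 1 ^ j, hm, ?_⟩
  rw [tau_sum]
  conv_rhs => rw [P.as_sum_range_C_mul_X_pow, Finset.mul_sum]
  refine Finset.sum_congr rfl fun j hj => ?_
  rw [tau_mul, tau_px, tau_pow, tau_X1, hq j (by have := Finset.mem_range.1 hj; omega), Polynomial.C_mul]
  ring

theorem evp_tau {L : Type} [Field L] [CharZero L] (F : P2) (t y : L) : evp (k := ℚ) t y (tau F) = vl F t y := by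
  unfold tau
  rw [vl_map, evp_C, Polynomial.aeval_X, evp_X]

theorem tau_shf (c : ℕ) (F : P2) : tau (shf c F) = sbp c (MvPolynomial.map (Int.castRingHom ℚ) F) := by
  unfold tau
  rw [vl_shf]
  unfold sbp vl
  rw [MvPolynomial.aeval_def, MvPolynomial.eval₂_map]
  have h1 : (Int.castRingHom (Polynomial (Polynomial ℚ))) =
      (algebraMap ℚ (Polynomial (Polynomial ℚ))).comp (Int.castRingHom ℚ) := RingHom.ext_int _ _
  have h2 : (Polynomial.C Polynomial.X - (c : Polynomial (Polynomial ℚ)) * Polynomial.X) =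
      (Polynomial.C Polynomial.X - Polynomial.C (Polynomial.C (c : ℚ)) * Polynomial.X) := by
    simp
  rw [h1, h2]

end Pool.Agent.H46.SF2
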